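import Pool.Agent.Y45.MON.LDefs

/-!
# Project MON, job LG2: the limit groups satisfy the laws, independent laws, infinity
-/

set_option autoImplicit false

namespace Pool.Agent.Y325.MON

open Turing Pool.Agent.Y45.MON Pool.Agent.Y45.MON.Tm Pool.Agent.Y45.MON.Sy

section gen

variable {Γ Λ : Type} {N : ℕ} {G : Type} [Group G] {v : Sy Γ Λ → G → G → G}
  {ε : Sy Γ Λ → Col (Sy Γ Λ) → Col (Sy Γ Λ) → ℕ} {col : G → Col (Sy Γ Λ)} {rk : G → ℕ}

theorem v_ne (hε : ∀ j c c', ε j c c' ≠ 1) (h : AM N G v ε col rk) (j : Sy Γ Λ) (a b : G)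
    (hn : a * b ≠ b * a) : v j a b ≠ 1 := by
  intro h1
  have h2 := h.ord j a b hn
  rw [h1, orderOf_one] at h2
  exact hε _ _ _ h2.symm

theorem nc_of (h : AM N G v ε col rk) (j : Sy Γ Λ) (hj : ¬ IsE j) (a b : G)
    (hn : v j a b ≠ 1) : a * b ≠ b * a := fun hc => hn (h.opv.v1 j a b hc hj)

theorem ncF1 (hε : ∀ j c c', ε j c c' ≠ 1) (h : AM N G v ε col rk) (j j' : Sy Γ Λ)
    (hj : j ≠ j') (a b a' b' : G) (h1 : a * b ≠ b * a) (h2 : a' * b' ≠ b' * a') :
    v j a b * v j' a' b' ≠ v j' a' b' * v j a b := by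
  intro hc
  have h3 := h.cmm j j' a b a' b' 1 h1 h2 (by simpa using v_ne hε h j a b h1) (by simpa using hc)
  exact hj h3.1

theorem ne_one_left {a b : G} (hn : a * b ≠ b * a) : a ≠ 1 := by
  rintro rfl; simp at hn

theorem ne_one_right {a b : G} (hn : a * b ≠ b * a) : b ≠ 1 := by
  rintro rfl; simp at hn

theorem nc_of_rk (h : AM N G v ε col rk) {a b : G} (ha : a ≠ 1) (hb : b ≠ 1)
    (hr : rk a < rk b) : a * b ≠ b * a := fun hc => (ne_of_lt hr) (h.rkc a b ha hb hc)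

/-- the commuting graph: `y` and `v j a y` do not commute -/
theorem ncF2r (hε : ∀ j c c', ε j c c' ≠ 1) (h : AM N G v ε col rk) (j : Sy Γ Λ) (a b : G)
    (h1 : a * b ≠ b * a) : b * v j a b ≠ v j a b * b :=
  nc_of_rk h (ne_one_right h1) (v_ne hε h j a b h1) (h.rk1 j a b h1).2

/-- groups `AM` which are not commutative are infinite -/
theorem inf (hε : ∀ j c c', ε j c c' ≠ 1) (h : AM N G v ε col rk)
    (hxy : ∃ x y : G, x * y ≠ y * x) : Infinite G := by
  obtain ⟨x, y, hn⟩ := hxy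
  let s : ℕ → G := fun n => Nat.rec x (fun _ z => v al z y) n
  have hs : ∀ n, s (n + 1) = v al (s n) y := fun n => rfl
  have hnc : ∀ n, s n * y ≠ y * s n := by
    intro n
    induction n with
    | zero => exact hn
    | succ n ih =>
      rw [hs]
      exact (ncF2r hε h al (s n) y ih).symm
  have hmono : StrictMono fun n => rk (s n) := by
    apply strictMono_nat_of_lt_succ
    intro n
    show rk (s n) < rk (s (n + 1))
    rw [hs]
    exact (h.rk1 al (s n) y (hnc n)).1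
  have hinj : Function.Injective s := fun a b hab => hmono.injective (by simp only [hab])
  exact Infinite.of_injective s hinj

/-- plain terms -/
def Pl : Tm (Sy Γ Λ) → Prop
  | var _ => True
  | op j a b => ¬ IsE j ∧ Pl a ∧ Pl b
  | pow _ _ => False
  | com _ _ => False

/-- nondegenerate terms -/
def ND (v : Sy Γ Λ → G → G → G) (f : ℕ → G) : Tm (Sy Γ Λ) → Prop
  | var _ => True
  | op _ a b => ND v f a ∧ ND v f b ∧ ev v f a * ev v f b ≠ ev v f b * ev v f a
  | pow _ _ => False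
  | com _ _ => False

theorem col_ec (h : AM N G v ε col rk) (f : ℕ → G) (t : Tm (Sy Γ Λ)) (ht : ND v f t) :
    col (ev v f t) = ec (fun n => col (f n)) t := by
  induction t with
  | var n => rfl
  | op j a b iha ihb =>
    simp only [ND] at ht
    simp only [ev, ec]
    rw [h.clr j _ _ ht.2.2, iha ht.1, ihb ht.2.1]
  | pow a n _ => exact ht.elim
  | com a b _ _ => exact ht.elim

theorem ord_op (h : AM N G v ε col rk) (f : ℕ → G) (j : Sy Γ Λ) (a b : Tm (Sy Γ Λ))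
    (ht : ND v f (op j a b)) : orderOf (v j (ev v f a) (ev v f b)) =
      ε j (ec (fun n => col (f n)) a) (ec (fun n => col (f n)) b) := by
  simp only [ND] at ht
  rw [h.ord j _ _ ht.2.2, col_ec h f a ht.1, col_ec h f b ht.2.1]

theorem nd_of_ne (h : AM N G v ε col rk) (f : ℕ → G) (t : Tm (Sy Γ Λ)) (hp : Pl t)
    (ht : ev v f t ≠ 1) : ND v f t := by
  induction t with
  | var n => trivial
  | op j a b iha ihb =>
    simp only [Pl] at hp
    simp only [ev] at ht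
    have hn := nc_of h j hp.1 _ _ ht
    exact ⟨iha hp.2.1 (ne_one_left hn), ihb hp.2.2 (ne_one_right hn), hn⟩
  | pow a n _ => exact hp.elim
  | com a b _ _ => exact hp.elim

theorem nd_of_nc (h : AM N G v ε col rk) (f : ℕ → G) (s t : Tm (Sy Γ Λ)) (hs : Pl s)
    (ht : Pl t) (hn : ev v f s * ev v f t ≠ ev v f t * ev v f s) (j : Sy Γ Λ) :
    ND v f (op j s t) :=
  ⟨nd_of_ne h f s hs (ne_one_left hn), nd_of_ne h f t ht (ne_one_right hn), hn⟩

end gen

/-- size of colours -/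
def sz {J : Type} : Col J → ℕ
  | .bas => 0
  | .node _ a b => sz a + sz b + 1

theorem node_ne_left {J : Type} (j : J) (a b : Col J) : Col.node j a b ≠ a := by
  intro h
  have := congrArg sz h
  simp only [sz] at this
  omega

section rules

variable {Γ Λ : Type} [Inhabited Γ] [Inhabited Λ]

/-- the rules as an inductive relation -/
inductive RV (M : TM0.Machine Γ Λ) : Λ → Γ → Option Γ → Option Γ → Tm (Sy Γ Λ) → Tm (Sy Γ Λ) →
    Tm (Sy Γ Λ) → Tm (Sy Γ Λ) → Prop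
  | wr (q : Λ) (a : Γ) (o o2 : Option Γ) (q' : Λ) (b : Γ) (h : M q a = some (q', .write b))
      (hne : ¬ (q' = q ∧ b = a)) :
      RV M q a o o2 (op (lc o) (var 0) (var 1)) (op (rh q a) (var 2) (var 3))
        (op (lc o) (var 0) (var 1)) (op (rh q' b) (var 2) (var 3))
  | rs (q : Λ) (a : Γ) (o : Option Γ) (b : Γ) (q' : Λ) (h : M q a = some (q', .move Dir.right)) :
      RV M q a o (some b) (op (lc o) (var 0) (var 1))
        (op (rh q a) (op (rc (some b)) (var 2) (var 3)) (var 4))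
        (op (lc (some a)) (op (lc o) (var 0) (var 1))
          (op (rh q a) (op (rc (some b)) (var 2) (var 3)) (var 4)))
        (op (rh q' b) (var 2) (var 3))
  | rn (q : Λ) (a : Γ) (o : Option Γ) (q' : Λ) (h : M q a = some (q', .move Dir.right)) :
      RV M q a o none (op (lc o) (var 0) (var 1))
        (op (rh q a) (op (rc none) (var 2) (var 3)) (var 4))
        (op (lc (some a)) (op (lc o) (var 0) (var 1))
          (op (rh q a) (op (rc none) (var 2) (var 3)) (var 4)))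
        (op (rh q' default) (op (rc none) (var 2) (var 3)) (op (lc o) (var 0) (var 1)))
  | ls (q : Λ) (a : Γ) (c : Γ) (o2 : Option Γ) (q' : Λ) (h : M q a = some (q', .move Dir.left)) :
      RV M q a (some c) o2 (op (lc (some c)) (var 0) (var 1)) (op (rh q a) (var 2) (var 3))
        (var 0) (op (rh q' c) (op (rc (some a)) (var 2) (var 3))
          (op (lc (some c)) (var 0) (var 1)))
  | ln (q : Λ) (a : Γ) (o2 : Option Γ) (q' : Λ) (h : M q a = some (q', .move Dir.left)) :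
      RV M q a none o2 (op (lc none) (var 0) (var 1)) (op (rh q a) (var 2) (var 3))
        (op (lc none) (var 0) (var 1)) (op (rh q' default) (op (rc (some a)) (var 2) (var 3))
          (op (lc none) (var 0) (var 1)))

theorem rv_of_rl (M : TM0.Machine Γ Λ) (q : Λ) (a : Γ) (o o2 : Option Γ)
    (s1 s2 t1 t2 : Tm (Sy Γ Λ)) (h : rl M q a o o2 = some (s1, s2, t1, t2)) :
    RV M q a o o2 s1 s2 t1 t2 := by
  unfold rl at h
  rcases hM : M q a with _ | ⟨q', st⟩
  · simp [hM] at h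
  · rcases st with d | b
    · rcases d with _ | _
      · rcases o with _ | c
        · simp only [hM, Option.some.injEq, Prod.mk.injEq] at h
          obtain ⟨rfl, rfl, rfl, rfl⟩ := h
          exact RV.ln q a o2 q' hM
        · simp only [hM, Option.some.injEq, Prod.mk.injEq] at h
          obtain ⟨rfl, rfl, rfl, rfl⟩ := h
          exact RV.ls q a c o2 q' hM
      · rcases o2 with _ | b
        · simp only [hM, Option.some.injEq, Prod.mk.injEq] at h
          obtain ⟨rfl, rfl, rfl, rfl⟩ := h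
          exact RV.rn q a o q' hM
        · simp only [hM, Option.some.injEq, Prod.mk.injEq] at h
          obtain ⟨rfl, rfl, rfl, rfl⟩ := h
          exact RV.rs q a o b q' hM
    · simp only [hM] at h
      split_ifs at h with hc
      simp only [Option.some.injEq, Prod.mk.injEq] at h
      obtain ⟨rfl, rfl, rfl, rfl⟩ := h
      exact RV.wr q a o o2 q' b hM hc

theorem rv_pl {M : TM0.Machine Γ Λ} {q : Λ} {a : Γ} {o o2 : Option Γ}
    {s1 s2 t1 t2 : Tm (Sy Γ Λ)} (h : RV M q a o o2 s1 s2 t1 t2) :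
    Pl s1 ∧ Pl s2 ∧ Pl t1 ∧ Pl t2 := by
  cases h <;> simp [Pl, IsE]

/-- the colours of the two sides of a rule are different -/
theorem rv_col {M : TM0.Machine Γ Λ} {q : Λ} {a : Γ} {o o2 : Option Γ}
    {s1 s2 t1 t2 : Tm (Sy Γ Λ)} (h : RV M q a o o2 s1 s2 t1 t2) (g : ℕ → Col (Sy Γ Λ))
    (h1 : ec g s1 = ec g t1) (h2 : ec g s2 = ec g t2) : False := by
  cases h with
  | wr _ _ q' b h hne =>
    simp only [ec, Col.node.injEq, rh.injEq, and_true] at h2
    exact hne ⟨h2.1.symm, h2.2.symm⟩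
  | rs _ b q' h =>
    have := congrArg sz h1
    simp only [ec, sz] at this
    omega
  | rn _ q' h =>
    have := congrArg sz h1
    simp only [ec, sz] at this
    omega
  | ls c _ q' h =>
    have := congrArg sz h1
    simp only [ec, sz] at this
    omega
  | ln _ q' h =>
    have := congrArg sz h2
    simp only [ec, sz] at this
    omega

variable {N : ℕ} {G : Type} [Group G] {v : Sy Γ Λ → G → G → G}
  {ε : Sy Γ Λ → Col (Sy Γ Λ) → Col (Sy Γ Λ) → ℕ} {col : G → Col (Sy Γ Λ)} {rk : G → ℕ}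

/-- a nondegenerate target gives a nondegenerate source -/
theorem rv_back (hε : ∀ j c c', ε j c c' ≠ 1) (hA : AM N G v ε col rk) (f : ℕ → G)
    {M : TM0.Machine Γ Λ} {q : Λ} {a : Γ} {o o2 : Option Γ}
    {s1 s2 t1 t2 : Tm (Sy Γ Λ)} (h : RV M q a o o2 s1 s2 t1 t2) (j : Sy Γ Λ)
    (ht : ND v f (op j t1 t2)) : ND v f (op j s1 s2) := by
  cases h with
  | wr _ _ q' b h hne =>
    obtain ⟨⟨_, _, h01⟩, ⟨_, _, h23⟩, _⟩ := ht
    exact ⟨⟨trivial, trivial, h01⟩, ⟨trivial, trivial, h23⟩,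
      ncF1 hε hA _ _ (by simp) _ _ _ _ h01 h23⟩
  | rs _ b q' h => exact ht.1
  | rn _ q' h => exact ht.1
  | ls c _ q' h =>
    obtain ⟨_, ⟨⟨_, _, h23⟩, ⟨_, _, h01⟩, _⟩, _⟩ := ht
    exact ⟨⟨trivial, trivial, h01⟩, ⟨trivial, trivial, h23⟩,
      ncF1 hε hA _ _ (by simp) _ _ _ _ h01 h23⟩
  | ln _ q' h =>
    obtain ⟨_, ⟨⟨_, _, h23⟩, ⟨_, _, h01⟩, _⟩, _⟩ := ht
    exact ⟨⟨trivial, trivial, h01⟩, ⟨trivial, trivial, h23⟩,
      ncF1 hε hA _ _ (by simp) _ _ _ _ h01 h23⟩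

/-- a nondegenerate source gives a nondegenerate target -/
theorem rv_forw (hε : ∀ j c c', ε j c c' ≠ 1) (hA : AM N G v ε col rk) (f : ℕ → G)
    {M : TM0.Machine Γ Λ} {q : Λ} {a : Γ} {o o2 : Option Γ}
    {s1 s2 t1 t2 : Tm (Sy Γ Λ)} (h : RV M q a o o2 s1 s2 t1 t2) (j : Sy Γ Λ)
    (hs : ND v f (op j s1 s2)) : ND v f (op j t1 t2) := by
  cases h with
  | wr _ _ q' b h hne =>
    obtain ⟨⟨_, _, h01⟩, ⟨_, _, h23⟩, _⟩ := hs
    exact ⟨⟨trivial, trivial, h01⟩, ⟨trivial, trivial, h23⟩,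
      ncF1 hε hA _ _ (by simp) _ _ _ _ h01 h23⟩
  | rs _ b q' h =>
    obtain ⟨⟨_, _, h01⟩, ⟨⟨_, _, h23⟩, _, h4⟩, hss⟩ := hs
    exact ⟨⟨⟨trivial, trivial, h01⟩, ⟨⟨trivial, trivial, h23⟩, trivial, h4⟩, hss⟩,
      ⟨trivial, trivial, h23⟩, ncF1 hε hA _ _ (by simp) _ _ _ _ hss h23⟩
  | rn _ q' h =>
    obtain ⟨⟨_, _, h01⟩, ⟨⟨_, _, h23⟩, _, h4⟩, hss⟩ := hs
    have h5 := ncF1 hε hA (rc none) (lc o) (by simp) _ _ _ _ h23 h01
    exact ⟨⟨⟨trivial, trivial, h01⟩, ⟨⟨trivial, trivial, h23⟩, trivial, h4⟩, hss⟩,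
      ⟨⟨trivial, trivial, h23⟩, ⟨trivial, trivial, h01⟩, h5⟩,
      ncF1 hε hA _ _ (by simp) _ _ _ _ hss h5⟩
  | ls c _ q' h =>
    obtain ⟨⟨_, _, h01⟩, ⟨_, _, h23⟩, _⟩ := hs
    have h5 := ncF1 hε hA (rc (some a)) (lc (some c)) (by simp) _ _ _ _ h23 h01
    refine ⟨trivial, ⟨⟨trivial, trivial, h23⟩, ⟨trivial, trivial, h01⟩, h5⟩, ?_⟩
    apply nc_of_rk hA (ne_one_left h01) (v_ne hε hA _ _ _ h5)
    exact lt_trans (hA.rk1 (lc (some c)) _ _ h01).1 (hA.rk1 (rh q' c) _ _ h5).2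
  | ln _ q' h =>
    obtain ⟨⟨_, _, h01⟩, ⟨_, _, h23⟩, _⟩ := hs
    have h5 := ncF1 hε hA (rc (some a)) (lc none) (by simp) _ _ _ _ h23 h01
    exact ⟨⟨trivial, trivial, h01⟩, ⟨⟨trivial, trivial, h23⟩, ⟨trivial, trivial, h01⟩, h5⟩,
      ncF1 hε hA _ _ (by simp) _ _ _ _ h01 h5⟩

end rules

section parse

variable {Γ Λ : Type} [Inhabited Γ] [Inhabited Λ]

/-- colours of left stacks -/
inductive LRep : Col (Sy Γ Λ) → ListBlank Γ → Prop
  | bot (x y : Col (Sy Γ Λ)) : LRep (Col.node (lc none) x y) (ListBlank.mk [])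
  | cons (a : Γ) (c z : Col (Sy Γ Λ)) (L : ListBlank Γ) (h : LRep c L) :
      LRep (Col.node (lc (some a)) c z) (L.cons a)

/-- colours of right stacks -/
inductive RRep : Col (Sy Γ Λ) → ListBlank Γ → Prop
  | bot (x y : Col (Sy Γ Λ)) : RRep (Col.node (rc none) x y) (ListBlank.mk [])
  | cons (a : Γ) (c z : Col (Sy Γ Λ)) (L : ListBlank Γ) (h : RRep c L) :
      RRep (Col.node (rc (some a)) c z) (L.cons a)

theorem lrep_cons {a : Γ} {c z : Col (Sy Γ Λ)} {L : ListBlank Γ}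
    (h : LRep (Col.node (lc (some a)) c z) L) : ∃ L', L = L'.cons a ∧ LRep c L' := by
  cases h with
  | cons _ _ _ L' h => exact ⟨L', rfl, h⟩

theorem lrep_bot {c z : Col (Sy Γ Λ)} {L : ListBlank Γ}
    (h : LRep (Col.node (lc none) c z) L) : L = ListBlank.mk [] := by
  cases h; rfl

theorem rrep_cons {a : Γ} {c z : Col (Sy Γ Λ)} {L : ListBlank Γ}
    (h : RRep (Col.node (rc (some a)) c z) L) : ∃ L', L = L'.cons a ∧ RRep c L' := by
  cases h with
  | cons _ _ _ L' h => exact ⟨L', rfl, h⟩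

theorem rrep_bot {c z : Col (Sy Γ Λ)} {L : ListBlank Γ}
    (h : RRep (Col.node (rc none) c z) L) : L = ListBlank.mk [] := by
  cases h; rfl

/-- a pair of colours represents a configuration -/
def Rep (c c' : Col (Sy Γ Λ)) (cfg : TM0.Cfg Γ Λ) : Prop :=
  LRep c cfg.Tape.left ∧ ∃ z z', c' = Col.node (rh cfg.q cfg.Tape.head) z z' ∧
    RRep z cfg.Tape.right

theorem rrep_tR (g : ℕ → Col (Sy Γ Λ)) (l : List Γ) :
    RRep (ec g (tR l)) (ListBlank.mk l) := by
  induction l with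
  | nil => exact RRep.bot _ _
  | cons a l ih =>
    have := RRep.cons a (ec g (tR l)) (ec g tA0) _ ih
    rwa [ListBlank.cons_mk] at this

theorem rep_start (l : List Γ) (g : ℕ → Col (Sy Γ Λ)) :
    Rep (ec g tA0) (ec g (tB0 l)) (TM0.init l : TM0.Cfg Γ Λ) := by
  refine ⟨LRep.bot _ _, ec g (tR l.tail), ec g tA0, ?_, ?_⟩
  · simp only [TM0.init, Tape.mk₁, Tape.mk₂, Tape.mk', ListBlank.head_mk, tB0, ec]
  · have := rrep_tR g l.tail
    simpa only [TM0.init, Tape.mk₁, Tape.mk₂, Tape.mk', ListBlank.tail_mk] using this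

theorem rep_step (M : TM0.Machine Γ Λ) {q : Λ} {a : Γ} {o o2 : Option Γ}
    {s1 s2 t1 t2 : Tm (Sy Γ Λ)} (h : RV M q a o o2 s1 s2 t1 t2) (g : ℕ → Col (Sy Γ Λ))
    (cfg : TM0.Cfg Γ Λ) (hr : Rep (ec g s1) (ec g s2) cfg) :
    ∃ cfg', TM0.step M cfg = some cfg' ∧ Rep (ec g t1) (ec g t2) cfg' := by
  obtain ⟨q0, ⟨a0, L, R⟩⟩ := cfg
  obtain ⟨hL, z, z', h2, hR⟩ := hr
  simp only at hL h2 hR
  cases h with
  | wr _ _ q' b h hne =>
    simp only [ec, Col.node.injEq, rh.injEq] at h2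
    obtain ⟨⟨rfl, rfl⟩, rfl, rfl⟩ := h2
    refine ⟨⟨q', ⟨b, L, R⟩⟩, ?_, hL, _, _, rfl, hR⟩
    simp [TM0.step, h, Tape.write]
  | rs _ b q' h =>
    simp only [ec, Col.node.injEq, rh.injEq] at h2
    obtain ⟨⟨rfl, rfl⟩, rfl, rfl⟩ := h2
    obtain ⟨R', rfl, hR'⟩ := rrep_cons hR
    refine ⟨⟨q', ⟨b, L.cons a, R'⟩⟩, ?_, LRep.cons _ _ _ _ hL, _, _, rfl, hR'⟩
    simp [TM0.step, h, Tape.move]
  | rn _ q' h =>
    simp only [ec, Col.node.injEq, rh.injEq] at h2
    obtain ⟨⟨rfl, rfl⟩, rfl, rfl⟩ := h2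
    obtain rfl := rrep_bot hR
    refine ⟨⟨q', ⟨default, L.cons a, ListBlank.mk []⟩⟩, ?_, LRep.cons _ _ _ _ hL, _, _, rfl,
      RRep.bot _ _⟩
    simp [TM0.step, h, Tape.move]
  | ls c _ q' h =>
    simp only [ec, Col.node.injEq, rh.injEq] at h2
    obtain ⟨⟨rfl, rfl⟩, rfl, rfl⟩ := h2
    obtain ⟨L', rfl, hL'⟩ := lrep_cons hL
    refine ⟨⟨q', ⟨c, L', R.cons a⟩⟩, ?_, hL', _, _, rfl, RRep.cons _ _ _ _ hR⟩
    simp [TM0.step, h, Tape.move]
  | ln _ q' h =>
    simp only [ec, Col.node.injEq, rh.injEq] at h2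
    obtain ⟨⟨rfl, rfl⟩, rfl, rfl⟩ := h2
    obtain rfl := lrep_bot hL
    refine ⟨⟨q', ⟨default, ListBlank.mk [], R.cons a⟩⟩, ?_, LRep.bot _ _, _, _, rfl,
      RRep.cons _ _ _ _ hR⟩
    simp [TM0.step, h, Tape.move]

/-- every fact is a configuration of the run -/
theorem fact_rep (M : TM0.Machine Γ Λ) (l : List Γ) (c c' : Col (Sy Γ Λ))
    (h : Fact M l c c') :
    ∃ cfg, StateTransition.Reaches (TM0.step M) (TM0.init l) cfg ∧ Rep c c' cfg := by
  induction h with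
  | start g => exact ⟨_, Relation.ReflTransGen.refl, rep_start l g⟩
  | step g s a o o2 s1 s2 t1 t2 h h1 ih =>
    obtain ⟨cfg, hc, hr⟩ := ih
    obtain ⟨cfg', hs, hr'⟩ := rep_step M (rv_of_rl M s a o o2 s1 s2 t1 t2 h) g cfg hr
    exact ⟨cfg', hc.tail hs, hr'⟩

/-- a fact with a halting symbol -/
theorem hlt_of_fact (M : TM0.Machine Γ Λ) (l : List Γ) (c z z' : Col (Sy Γ Λ)) (s : Λ) (a : Γ)
    (hM : M s a = none) (h : Fact M l c (Col.node (rh s a) z z')) : Hlt M l := by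
  obtain ⟨cfg, hc, hr⟩ := fact_rep M l _ _ h
  obtain ⟨q0, ⟨a0, L, R⟩⟩ := cfg
  obtain ⟨_, _, _, h2, _⟩ := hr
  simp only [Col.node.injEq, rh.injEq] at h2
  obtain ⟨⟨rfl, rfl⟩, _, _⟩ := h2
  unfold Hlt
  rw [Part.dom_iff_mem]
  refine ⟨_, StateTransition.mem_eval.2 ⟨hc, ?_⟩⟩
  simp [TM0.step, hM]

end parse

section laws

variable {Γ Λ : Type} [Inhabited Γ] [Inhabited Λ]

theorem eps_ne (M : TM0.Machine Γ Λ) (l : List Γ) (p q : ℕ) (S : Set ℕ) (hp : p.Prime)
    (hq : q.Prime) (j : Sy Γ Λ) (c c' : Col (Sy Γ Λ)) : eps M l p q S j c c' ≠ 1 := by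
  have h1 := hp.one_lt
  have h2 := hq.one_lt
  have h3 : p * q ≠ 1 := by
    have : 1 < p * q := Nat.one_lt_mul_iff.2 ⟨by omega, by omega, Or.inl h1⟩
    omega
  cases j <;> simp only [eps] <;> (try split_ifs) <;> omega

theorem pow_p (p : ℕ) {G : Type} [Group G] {x : G} (h : orderOf x = p) : x ^ p = 1 := by
  rw [← h]; exact pow_orderOf_eq_one x

theorem ndv {p q : ℕ} (hp : p.Prime) (hq : q.Prime) : ¬ (p * q ∣ p) := by
  intro h
  have h1 := Nat.le_of_dvd hp.pos h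
  have h2 := hq.one_lt
  have h3 := hp.pos
  nlinarith

variable {M : TM0.Machine Γ Λ} {l : List Γ} {p q : ℕ} {S : Set ℕ} {G : Type} [Group G]
  {v : Sy Γ Λ → G → G → G} {col : G → Col (Sy Γ Λ)} {rk : G → ℕ}

/-- the law with `ep` -/
theorem ep_law (hA : AM (p * q) G v (eps M l p q S) col rk) (X Y : G)
    (h : X * Y = Y * X → X ^ p = 1) : v ep X Y ^ p = 1 := by
  by_cases hc : X * Y = Y * X
  · rw [hA.opv.vE ep X Y hc trivial]; exact h hc
  · exact pow_p p (by rw [hA.ord ep X Y hc]; simp only [eps])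

/-- the law with `eq` -/
theorem eq_law (hA : AM (p * q) G v (eps M l p q S) col rk) (X Y : G)
    (h : X * Y = Y * X → X ^ q = 1) : v eq X Y ^ q = 1 := by
  by_cases hc : X * Y = Y * X
  · rw [hA.opv.vE eq X Y hc trivial]; exact h hc
  · exact pow_p q (by rw [hA.ord eq X Y hc]; simp only [eps])

/-- an `al` element of order dividing `p` is a fact -/
theorem fact_of_pow (hp : p.Prime) (hq : q.Prime)
    (hA : AM (p * q) G v (eps M l p q S) col rk) (f : ℕ → G) (s1 s2 : Tm (Sy Γ Λ))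
    (hs : ND v f (op al s1 s2)) (h1 : v al (ev v f s1) (ev v f s2) ^ p = 1) :
    Fact M l (ec (fun n => col (f n)) s1) (ec (fun n => col (f n)) s2) := by
  by_contra hF
  have h2 := ord_op hA f al s1 s2 hs
  simp only [eps, if_neg hF] at h2
  exact ndv hp hq (h2 ▸ orderOf_dvd_of_pow_eq_one h1)

theorem pow_of_fact (hA : AM (p * q) G v (eps M l p q S) col rk) (f : ℕ → G)
    (s1 s2 : Tm (Sy Γ Λ)) (hs : ND v f (op al s1 s2))
    (hF : Fact M l (ec (fun n => col (f n)) s1) (ec (fun n => col (f n)) s2)) :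
    v al (ev v f s1) (ev v f s2) ^ p = 1 := by
  have h2 := ord_op hA f al s1 s2 hs
  simp only [eps, if_pos hF] at h2
  exact pow_p p h2

omit [Inhabited Λ] in
theorem pl_tA0 : Pl (tA0 : Tm (Sy Γ Λ)) := by simp [tA0, Pl, IsE]

omit [Inhabited Λ] in
theorem pl_tR (l : List Γ) : Pl (tR l : Tm (Sy Γ Λ)) := by
  induction l with
  | nil => simp [tR, Pl, IsE]
  | cons a l ih => simp [tR, Pl, IsE, ih, pl_tA0]

theorem pl_tB0 (l : List Γ) : Pl (tB0 l : Tm (Sy Γ Λ)) := by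
  simp [tB0, Pl, IsE, pl_tR, pl_tA0]

/-- halting configurations do not occur -/
theorem hl_law (hp : p.Prime) (hq : q.Prime) (hH : ¬ Hlt M l)
    (hA : AM (p * q) G v (eps M l p q S) col rk) (f : ℕ → G) (s : Λ) (a : Γ) (o : Option Γ)
    (h : M s a = none)
    (hc : v ga (v (lc o) (f 0) (f 1)) (v (rh s a) (f 2) (f 3)) *
        v al (v (lc o) (f 0) (f 1)) (v (rh s a) (f 2) (f 3)) ^ p =
      v al (v (lc o) (f 0) (f 1)) (v (rh s a) (f 2) (f 3)) ^ p *
        v ga (v (lc o) (f 0) (f 1)) (v (rh s a) (f 2) (f 3))) :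
    v ga (v (lc o) (f 0) (f 1)) (v (rh s a) (f 2) (f 3)) = 1 := by
  by_contra hne
  have hnd : ND v f (op ga (op (lc o) (var 0) (var 1)) (op (rh s a) (var 2) (var 3))) :=
    nd_of_ne hA f _ (by simp [Pl, IsE]) hne
  have hnc := hnd.2.2
  simp only [ev] at hnc
  by_cases h1 : v al (v (lc o) (f 0) (f 1)) (v (rh s a) (f 2) (f 3)) ^ p = 1
  · have hF := fact_of_pow hp hq hA f (op (lc o) (var 0) (var 1)) (op (rh s a) (var 2) (var 3))
      ⟨hnd.1, hnd.2.1, hnd.2.2⟩ h1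
    exact hH (hlt_of_fact M l _ _ _ s a h hF)
  · have h2 := hA.cmm al ga _ _ _ _ (p : ℤ) hnc hnc (by simpa using h1)
      (by simpa using hc.symm)
    simp at h2

/-- the terms of the start configuration are nondegenerate -/
theorem nd_tR (hε : ∀ j c c', eps M l p q S j c c' ≠ 1)
    (hA : AM (p * q) G v (eps M l p q S) col rk) (f : ℕ → G)
    (h01 : f 0 * f 1 ≠ f 1 * f 0) (m : List Γ) :
    ND v f (tR m) ∧ ev v f (tR m) * ev v f tA0 ≠ ev v f tA0 * ev v f (tR m) := by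
  induction m with
  | nil =>
    exact ⟨⟨trivial, trivial, h01⟩, ncF1 hε hA _ _ (by simp) _ _ _ _ h01 h01⟩
  | cons a m ih =>
    exact ⟨⟨ih.1, ⟨trivial, trivial, h01⟩, ih.2⟩, ncF1 hε hA _ _ (by simp) _ _ _ _ ih.2 h01⟩

theorem nd_start (hε : ∀ j c c', eps M l p q S j c c' ≠ 1)
    (hA : AM (p * q) G v (eps M l p q S) col rk) (f : ℕ → G)
    (h01 : f 0 * f 1 ≠ f 1 * f 0) (m : List Γ) (j : Sy Γ Λ) :
    ND v f (op j tA0 (tB0 m)) := by
  obtain ⟨h1, h2⟩ := nd_tR hε hA f h01 m.tail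
  exact ⟨⟨trivial, trivial, h01⟩, ⟨h1, ⟨trivial, trivial, h01⟩, h2⟩,
    ncF1 hε hA _ _ (by simp) _ _ _ _ h01 h2⟩

/-- the colours of the start configuration and of the variables are different -/
theorem start_law (hp : p.Prime) (hq : q.Prime)
    (hA : AM (p * q) G v (eps M l p q S) col rk) (f : ℕ → G)
    (hc : v ga (f 0) (f 1) * v ga (ev v f tA0) (ev v f (tB0 l)) =
      v ga (ev v f tA0) (ev v f (tB0 l)) * v ga (f 0) (f 1)) :
    v ga (f 0) (f 1) = 1 := by
  by_contra hne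
  have hε := eps_ne M l p q S hp hq
  have h01 := nc_of hA ga (by simp [IsE]) _ _ hne
  have hnd := nd_start hε hA f h01 l ga
  have h2 := hA.cmm ga ga _ _ _ _ 1 h01 hnd.2.2 (by simpa using hne) (by simpa using hc)
  have h3 := h2.2.1
  rw [col_ec hA f tA0 hnd.1] at h3
  simp only [tA0, ec] at h3
  exact node_ne_left _ _ _ h3.symm

/-- rules forward -/
theorem rule_p (hp : p.Prime) (hq : q.Prime)
    (hA : AM (p * q) G v (eps M l p q S) col rk) (f : ℕ → G) {s : Λ} {a : Γ} {o o2 : Option Γ}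
    {s1 s2 t1 t2 : Tm (Sy Γ Λ)} (h : rl M s a o o2 = some (s1, s2, t1, t2))
    (hc : v al (ev v f t1) (ev v f t2) * v al (ev v f s1) (ev v f s2) ^ p =
      v al (ev v f s1) (ev v f s2) ^ p * v al (ev v f t1) (ev v f t2)) :
    v al (ev v f t1) (ev v f t2) ^ p = 1 := by
  have hε := eps_ne M l p q S hp hq
  have hr := rv_of_rl M s a o o2 s1 s2 t1 t2 h
  obtain ⟨_, _, hp1, hp2⟩ := rv_pl hr
  by_cases hne : v al (ev v f t1) (ev v f t2) = 1
  · rw [hne, one_pow]
  · have ht : ND v f (op al t1 t2) := nd_of_ne hA f _ ⟨by simp [IsE], hp1, hp2⟩ hne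
    have hs := rv_back hε hA f hr al ht
    by_cases h1 : v al (ev v f s1) (ev v f s2) ^ p = 1
    · have hF := fact_of_pow hp hq hA f s1 s2 hs h1
      exact pow_of_fact hA f t1 t2 ht (Fact.step _ s a o o2 s1 s2 t1 t2 h hF)
    · have h2 := hA.cmm al al _ _ _ _ (p : ℤ) hs.2.2 ht.2.2 (by simpa using h1)
        (by simpa using hc.symm)
      rw [col_ec hA f s1 hs.1, col_ec hA f t1 ht.1, col_ec hA f s2 hs.2.1,
        col_ec hA f t2 ht.2.1] at h2
      exact (rv_col hr _ h2.2.1 h2.2.2).elim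

/-- rules backwards -/
theorem rule_g (hp : p.Prime) (hq : q.Prime)
    (hA : AM (p * q) G v (eps M l p q S) col rk) (f : ℕ → G) {s : Λ} {a : Γ} {o o2 : Option Γ}
    {s1 s2 t1 t2 : Tm (Sy Γ Λ)} (h : rl M s a o o2 = some (s1, s2, t1, t2))
    (hc : v ga (ev v f s1) (ev v f s2) * v ga (ev v f t1) (ev v f t2) =
      v ga (ev v f t1) (ev v f t2) * v ga (ev v f s1) (ev v f s2)) :
    v ga (ev v f s1) (ev v f s2) = 1 := by
  by_contra hne
  have hε := eps_ne M l p q S hp hq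
  have hr := rv_of_rl M s a o o2 s1 s2 t1 t2 h
  obtain ⟨hp1, hp2, _, _⟩ := rv_pl hr
  have hs : ND v f (op ga s1 s2) := nd_of_ne hA f _ ⟨by simp [IsE], hp1, hp2⟩ hne
  have ht := rv_forw hε hA f hr ga hs
  have h2 := hA.cmm ga ga _ _ _ _ 1 hs.2.2 ht.2.2 (by simpa using hne) (by simpa using hc)
  rw [col_ec hA f s1 hs.1, col_ec hA f t1 ht.1, col_ec hA f s2 hs.2.1,
    col_ec hA f t2 ht.2.1] at h2
  exact rv_col hr _ h2.2.1 h2.2.2

/-- the commutator law -/
theorem com_law (hA : AM (p * q) G v (eps M l p q S) col rk) (a b : G)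
    (hc : a * b * a⁻¹ * b⁻¹ * v ga a b = v ga a b * (a * b * a⁻¹ * b⁻¹)) :
    a * b * a⁻¹ * b⁻¹ = 1 := by
  by_contra hne
  have hn : a * b ≠ b * a := by
    intro h1
    apply hne
    rw [h1]; group
  exact hA.cmt ga a b hn hc

/-- the limit groups satisfy the laws -/
theorem laws (hp : p.Prime) (hq : q.Prime) (hH : ¬ Hlt M l)
    (hA : AM (p * q) G v (eps M l p q S) col rk) (t : Tm (Sy Γ Λ))
    (ht : IsLaw M l p q (p * q) t) (f : ℕ → G) : ev v f t = 1 := by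
  cases ht with
  | l0 => exact hA.exp _
  | l1 =>
    simp only [ev]
    by_cases hne : v al (ev v f tA0) (ev v f (tB0 l)) = 1
    · rw [hne, one_pow]
    · have hnd : ND v f (op al tA0 (tB0 l)) :=
        nd_of_ne hA f _ ⟨by simp [IsE], pl_tA0, pl_tB0 l⟩ hne
      exact pow_of_fact hA f _ _ hnd (Fact.start _)
  | l2 s a o o2 s1 s2 t1 t2 h =>
    simp only [ev]
    exact ep_law hA _ _ (rule_p hp hq hA f h)
  | l3p s a o h =>
    simp only [ev]
    exact ep_law hA _ _ fun hc => by rw [hl_law hp hq hH hA f s a o h hc, one_pow]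
  | l3q s a o h =>
    simp only [ev]
    exact eq_law hA _ _ fun hc => by rw [hl_law hp hq hH hA f s a o h hc, one_pow]
  | l4p s a o o2 s1 s2 t1 t2 h =>
    simp only [ev]
    exact ep_law hA _ _ fun hc => by rw [rule_g hp hq hA f h hc, one_pow]
  | l4q s a o o2 s1 s2 t1 t2 h =>
    simp only [ev]
    exact eq_law hA _ _ fun hc => by rw [rule_g hp hq hA f h hc, one_pow]
  | l5p =>
    simp only [ev]
    exact ep_law hA _ _ fun hc => by rw [start_law hp hq hA f hc, one_pow]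
  | l5q =>
    simp only [ev]
    exact eq_law hA _ _ fun hc => by rw [start_law hp hq hA f hc, one_pow]
  | l6p =>
    simp only [ev]
    exact ep_law hA _ _ fun hc => by rw [com_law hA _ _ hc, one_pow]
  | l6q =>
    simp only [ev]
    exact eq_law hA _ _ fun hc => by rw [com_law hA _ _ hc, one_pow]

/-! ### the independent laws -/

omit [Inhabited Γ] [Inhabited Λ] in
theorem ec_tD (g : ℕ → Col (Sy Γ Λ)) (i : ℕ) : ec g (tD i) = cD (g 0) (g 1) i := by
  induction i with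
  | zero => rfl
  | succ i ih => simp only [tD, cD, ec, ih]

omit [Inhabited Γ] [Inhabited Λ] in
theorem cD_inj (cx cy : Col (Sy Γ Λ)) : Function.Injective (cD cx cy) := by
  have h : StrictMono fun i => sz (cD cx cy i) := by
    apply strictMono_nat_of_lt_succ
    intro n
    simp only [cD, sz]
    omega
  intro a b hab
  exact h.injective (by simp only [hab])

omit [Inhabited Γ] [Inhabited Λ] in
theorem pl_tD (i : ℕ) : Pl (tD i : Tm (Sy Γ Λ)) := by
  induction i with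
  | zero => simp [tD, Pl, IsE]
  | succ i ih => simp [tD, Pl, IsE, ih]

theorem nd_tD (hε : ∀ j c c', eps M l p q S j c c' ≠ 1)
    (hA : AM (p * q) G v (eps M l p q S) col rk) (f : ℕ → G)
    (h01 : f 0 * f 1 ≠ f 1 * f 0) (i : ℕ) :
    ND v f (op (ex 2) (tD i) (op (ex 1) (var 0) (var 1))) := by
  induction i with
  | zero =>
    exact ⟨⟨trivial, trivial, h01⟩, ⟨trivial, trivial, h01⟩,
      ncF1 hε hA _ _ (by simp) _ _ _ _ h01 h01⟩
  | succ i ih =>
    exact ⟨⟨ih.1, ih.2.1, ih.2.2⟩, ⟨trivial, trivial, h01⟩,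
      ncF1 hε hA _ _ (by simp) _ _ _ _ ih.2.2 h01⟩

theorem indep (hp : p.Prime) (hq : q.Prime)
    (hA : AM (p * q) G v (eps M l p q S) col rk) (hxy : ∃ x y : G, x * y ≠ y * x) (i : ℕ) :
    (∀ f : ℕ → G, ev v f (tU p i) = 1) ↔ i ∈ S := by
  have hε := eps_ne M l p q S hp hq
  constructor
  · intro h
    obtain ⟨x, y, hn⟩ := hxy
    let f : ℕ → G := fun n => if n = 0 then x else y
    have h01 : f 0 * f 1 ≠ f 1 * f 0 := by simpa [f] using hn
    have hnd := nd_tD hε hA f h01 i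
    have h1 := h f
    simp only [tU, ev] at h1
    have h2 := ord_op hA f _ _ _ hnd
    simp only [eps, ev] at h2
    split_ifs at h2 with hc
    · obtain ⟨_, i', hi', cx, cy, h3, h4⟩ := hc
      simp only [ec, Col.node.injEq, true_and] at h4
      rw [ec_tD, h4.1, h4.2] at h3
      rwa [cD_inj _ _ h3]
    · exact (ndv hp hq (h2 ▸ orderOf_dvd_of_pow_eq_one h1)).elim
  · intro hi f
    simp only [tU, ev]
    by_cases hne : v (ex 2) (ev v f (tD i)) (v (ex 1) (f 0) (f 1)) = 1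
    · rw [hne, one_pow]
    · have hnd : ND v f (op (ex 2) (tD i) (op (ex 1) (var 0) (var 1))) :=
        nd_of_ne hA f _ ⟨by simp [IsE], pl_tD i, by simp [Pl, IsE]⟩ hne
      have h2 := ord_op hA f _ _ _ hnd
      simp only [eps, ev] at h2
      rw [if_pos ⟨rfl, i, hi, _, _, ec_tD _ i, rfl⟩] at h2
      exact pow_p p h2

end laws

end Pool.Agent.Y325.MON
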