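import Pool.Agent.Y45.MON.LStm
import Pool.Agent.Y325.MON.Law

/-!
# Project MON, job LG2
-/

set_option autoImplicit false

namespace Pool.Agent.Y325.MON

open Turing Pool.Agent.Y45.MON

theorem monLaw : MonLawStmt := by
  intro Γ Λ _ _ M l p q S hp hq hpq hH G _ v col rk hA t ht f
  exact laws hp hq hH hA t ht f

theorem indepS : IndepStmt := by
  intro Γ Λ _ _ M l p q S hp hq hpq G _ v col rk hA hxy i
  exact indep hp hq hA hxy i

theorem infS : InfStmt := by
  intro Γ Λ N G _ v ε col rk hε hA hxy
  exact inf hε hA hxy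

end Pool.Agent.Y325.MON
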